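import Pool.Agent.H191Z.RDefs

/-!
# The affine Fermat quartic over the integers and its localization
-/

set_option autoImplicit false

open TensorProduct Polynomial

namespace Pool.Agent.H549Z.Curve

open Pool.Agent.H191Z.Rig

/-- the equation as a polynomial over `ℤ[X]` -/
noncomputable def gZ : ℤ[X][X] := X ^ 4 + C (1 + X ^ 4)

lemma gZ_monic : gZ.Monic := monic_X_pow_add_C _ (by norm_num)

/-- the affine coordinate ring -/
def AZ : Type := AdjoinRoot gZ

noncomputable instance : CommRing AZ := inferInstanceAs (CommRing (AdjoinRoot gZ))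

/-- the structure map from the polynomial ring -/
noncomputable def ofZ : ℤ[X] →+* AZ := AdjoinRoot.of gZ

/-- first coordinate -/
noncomputable def xx : AZ := ofZ X

/-- second coordinate -/
noncomputable def yy : AZ := AdjoinRoot.root gZ

lemma rel : 1 + xx ^ 4 + yy ^ 4 = 0 := by
  have h := AdjoinRoot.eval₂_root gZ
  conv at h => lhs; arg 3; unfold gZ
  rw [eval₂_add, eval₂_pow, eval₂_X, eval₂_C, map_add, map_one, map_pow] at h
  have h2 : (yy ^ 4 + (1 + xx ^ 4) : AZ) = 0 := h
  linear_combination h2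

lemma rel_map {E : Type} [CommRing E] (α : AZ →+* E) : 1 + α xx ^ 4 + α yy ^ 4 = 0 := by
  have h := congrArg α rel
  rwa [map_add, map_add, map_one, map_pow, map_pow, map_zero] at h

/-- maps out of the coordinate ring -/
noncomputable def liftZ {E : Type} [CommRing E] (x y : E) (h : 1 + x ^ 4 + y ^ 4 = 0) :
    AZ →+* E :=
  AdjoinRoot.lift (eval₂RingHom (Int.castRingHom E) x) y (by
    unfold gZ
    rw [eval₂_add, eval₂_pow, eval₂_X, eval₂_C, map_add, map_one, map_pow, coe_eval₂RingHom,
      eval₂_X]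
    linear_combination h)

lemma liftZ_x {E : Type} [CommRing E] (x y : E) (h : 1 + x ^ 4 + y ^ 4 = 0) :
    liftZ x y h xx = x := by
  have h1 : liftZ x y h xx = eval₂RingHom (Int.castRingHom E) x X := AdjoinRoot.lift_of _
  rw [h1, coe_eval₂RingHom, eval₂_X]

lemma liftZ_y {E : Type} [CommRing E] (x y : E) (h : 1 + x ^ 4 + y ^ 4 = 0) :
    liftZ x y h yy = y := AdjoinRoot.lift_root _

lemma extZ {E : Type} [CommRing E] (f g : AZ →+* E) (h1 : f xx = g xx) (h2 : f yy = g yy) :
    f = g := by
  have h3 : f.comp ofZ = g.comp ofZ := by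
    apply Polynomial.ringHom_ext'
    · exact Subsingleton.elim _ _
    · exact h1
  exact AdjoinRoot.ringHom_ext (p := gZ) h3 h2

lemma finZ : (Polynomial.aeval xx : ℤ[X] →ₐ[ℤ] AZ).Finite := by
  have h1 : (Polynomial.aeval xx : ℤ[X] →ₐ[ℤ] AZ).toRingHom = ofZ := by
    apply Polynomial.ringHom_ext'
    · exact Subsingleton.elim _ _
    · exact Polynomial.aeval_X xx
  have h2 : Module.Finite ℤ[X] (AdjoinRoot gZ) := gZ_monic.finite_adjoinRoot
  have h3 : RingHom.Finite (algebraMap ℤ[X] (AdjoinRoot gZ)) := RingHom.finite_algebraMap.2 h2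
  change RingHom.Finite (Polynomial.aeval xx : ℤ[X] →ₐ[ℤ] AZ).toRingHom
  rw [h1]
  exact h3

/-- the overlap ring -/
def AL : Type := Localization.Away xx

noncomputable instance : CommRing AL := inferInstanceAs (CommRing (Localization.Away xx))

noncomputable instance : Algebra AZ AL := inferInstanceAs (Algebra AZ (Localization.Away xx))

instance : IsLocalization.Away xx AL :=
  inferInstanceAs (IsLocalization.Away xx (Localization.Away xx))

/-- the first chart map -/
noncomputable def g0 : AZ →+* AL := algebraMap AZ AL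

/-- the inverse of the first coordinate -/
noncomputable def xi : AL := IsLocalization.Away.invSelf xx

lemma x_xi : g0 xx * xi = 1 := IsLocalization.Away.mul_invSelf xx

lemma g0_unit : IsUnit (g0 xx) := IsUnit.of_mul_eq_one _ x_xi

/-- maps out of the overlap ring -/
noncomputable def liftL {E : Type} [CommRing E] (g : AZ →+* E) (h : IsUnit (g xx)) : AL →+* E :=
  IsLocalization.Away.lift xx h

lemma liftL_g0 {E : Type} [CommRing E] (g : AZ →+* E) (h : IsUnit (g xx)) (a : AZ) :
    liftL g h (g0 a) = g a := IsLocalization.Away.lift_eq xx h a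

lemma extL {E : Type} [CommRing E] (f g : AL →+* E) (h1 : f (g0 xx) = g (g0 xx))
    (h2 : f (g0 yy) = g (g0 yy)) : f = g :=
  IsLocalization.ringHom_ext (Submonoid.powers xx) (extZ (f.comp g0) (g.comp g0) h1 h2)

lemma rel1 : 1 + xi ^ 4 + (g0 yy * xi) ^ 4 = 0 := by
  have h := rel_map g0
  have h1 := x_xi
  linear_combination xi ^ 4 * h -
    (g0 xx ^ 3 * xi ^ 3 + g0 xx ^ 2 * xi ^ 2 + g0 xx * xi + 1) * h1

/-- the second chart map -/
noncomputable def g1 : AZ →+* AL := liftZ xi (g0 yy * xi) rel1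

lemma g1_x : g1 xx = xi := liftZ_x _ _ _

lemma g1_y : g1 yy = g0 yy * xi := liftZ_y _ _ _

lemma g1_unit : IsUnit (g1 xx) := by
  rw [g1_x]
  exact IsUnit.of_mul_eq_one_right _ x_xi

/-- the involution of the overlap ring -/
noncomputable def sw : AL →+* AL := liftL g1 g1_unit

lemma sw_g0 (a : AZ) : sw (g0 a) = g1 a := liftL_g0 _ _ _

lemma sw_xi : sw xi = g0 xx := by
  have h := congrArg sw x_xi
  rw [map_mul, map_one, sw_g0, g1_x] at h
  have h1 := x_xi
  linear_combination g0 xx * h - sw xi * h1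

lemma sw_sw (m : AL) : sw (sw m) = m := by
  have h : sw.comp sw = RingHom.id AL := by
    apply extL
    · change sw (sw (g0 xx)) = g0 xx
      rw [sw_g0, g1_x, sw_xi]
    · change sw (sw (g0 yy)) = g0 yy
      rw [sw_g0, g1_y, map_mul, sw_g0, g1_y, sw_xi]
      have h1 := x_xi
      linear_combination g0 yy * h1
  exact DFunLike.congr_fun h m

lemma loc_g0 : IsLoc g0 xx where
  unit := g0_unit
  sur := fun m => IsLocalization.Away.surj xx m
  ker := fun a ha => by
    obtain ⟨n, hn⟩ := IsLocalization.Away.exists_of_eq (S := AL) xx (a := a) (b := 0)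
      (by rw [map_zero]; exact ha)
    exact ⟨n, by rw [hn, mul_zero]⟩

lemma loc_g1 : IsLoc g1 xx where
  unit := g1_unit
  sur := fun m => by
    obtain ⟨n, a, h⟩ := loc_g0.sur (sw m)
    refine ⟨n, a, ?_⟩
    have h1 := congrArg sw h
    rwa [map_mul, map_pow, sw_sw, sw_g0, sw_g0] at h1
  ker := fun a ha => by
    apply loc_g0.ker
    rw [← sw_sw (g0 a), sw_g0, ha, map_zero]

/-- the two chart description -/
noncomputable def two : Two ℤ AZ AZ AL where
  f0 := g0.toIntAlgHom
  f1 := g1.toIntAlgHom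
  u := xx
  v := xx
  huv := by
    change g0 xx * g1 xx = 1
    rw [g1_x, x_xi]
  loc0 := loc_g0
  loc1 := loc_g1
  fin0 := finZ
  fin1 := finZ

lemma two_f0 : two.f0.toRingHom = g0 := rfl

lemma two_f1 : two.f1.toRingHom = g1 := rfl

/-- the equation of a finite set of points -/
noncomputable def bq : ℤ[X] := X ^ 4 + C 2

lemma bq_monic : bq.Monic := monic_X_pow_add_C _ (by norm_num)

/-- a finite ring of points -/
def BZ : Type := AdjoinRoot bq

noncomputable instance : CommRing BZ := inferInstanceAs (CommRing (AdjoinRoot bq))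

lemma BZ_finite : Module.Finite ℤ BZ := by
  have h2 : Module.Finite ℤ (AdjoinRoot bq) := bq_monic.finite_adjoinRoot
  exact h2

lemma BZ_from : Nonempty (AL →+* BZ) := by
  let r : BZ := AdjoinRoot.root bq
  have h : 1 + (1 : BZ) ^ 4 + r ^ 4 = 0 := by
    have h := AdjoinRoot.eval₂_root bq
    conv at h => lhs; arg 3; unfold bq
    rw [eval₂_add, eval₂_pow, eval₂_X, eval₂_C, map_ofNat] at h
    have h2 : (r ^ 4 + 2 : BZ) = 0 := h
    linear_combination h2
  exact ⟨liftL (liftZ 1 r h) (by rw [liftZ_x]; exact isUnit_one)⟩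

lemma BZ_to (K : Type) [Field K] [IsAlgClosed K] : Nonempty (BZ →+* K) := by
  obtain ⟨x, hx⟩ := IsAlgClosed.exists_pow_nat_eq (-2 : K) (n := 4) (by norm_num)
  exact ⟨AdjoinRoot.lift (f := bq) (Int.castRingHom K) x (by
    unfold bq
    rw [eval₂_add, eval₂_pow, eval₂_X, eval₂_C, map_ofNat, hx]
    norm_num)⟩

end Pool.Agent.H549Z.Curve
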