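import Pool.Agent.H191Z.RDefs
import Pool.Agent.H191Z.GenusDefs
import Pool.Agent.H551Z.QuarticC
import Pool.Agent.H549Z.CurveA

/-!
# The Fermat quartic with a two chart description over the integers
-/

set_option autoImplicit false

open TensorProduct CategoryTheory AlgebraicGeometry
open Pool.Agent.H191Z.Gerbe Pool.Agent.H191Z.Rig
open Pool.Agent.Helper198.Sch Pool.Agent.H551Z.Quartic

namespace Pool.Agent.H549Z.Curve

attribute [local instance] MvPolynomial.gradedAlgebra

section glue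

variable {σ : Type} {R : Type} [CommRing R]

/-- the ring of the overlap of two charts -/
abbrev Ov (J : HI σ R) (c c' : σ) : Type :=
  HomogeneousLocalization.Away (qgrad J.toIdeal) (gen J c * gen J c')

/-- restriction from the first chart -/
noncomputable def r0 (J : HI σ R) (c c' : σ) : Ch J c →+* Ov J c c' :=
  HomogeneousLocalization.awayMap (qgrad J.toIdeal) (gen_mem J c') rfl

/-- restriction from the second chart -/
noncomputable def r1 (J : HI σ R) (c c' : σ) : Ch J c' →+* Ov J c c' :=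
  HomogeneousLocalization.awayMap (qgrad J.toIdeal) (gen_mem J c) (mul_comm _ _)

lemma r_const (J : HI σ R) (c c' : σ) (r : R) :
    r1 J c c' (algebraMap R (Ch J c') r) = r0 J c c' (algebraMap R (Ch J c) r) := by
  have h1 := HomogeneousLocalization.awayMap_fromZeroRingHom (qgrad J.toIdeal) (gen_mem J c)
    (mul_comm (gen J c) (gen J c')) (algebraMap R (qgrad J.toIdeal 0) r)
  have h2 := HomogeneousLocalization.awayMap_fromZeroRingHom (qgrad J.toIdeal) (gen_mem J c')
    (rfl : gen J c * gen J c' = gen J c * gen J c') (algebraMap R (qgrad J.toIdeal 0) r)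
  exact h1.trans h2.symm

lemma r0_val (J : HI σ R) (c c' a : σ) :
    (r0 J c c' (frac J c a)).val = Localization.mk (gen J a * gen J c' ^ 1)
      (⟨(gen J c * gen J c') ^ 1, ⟨1, rfl⟩⟩ : Submonoid.powers (gen J c * gen J c')) :=
  HomogeneousLocalization.val_awayMap_mk (qgrad J.toIdeal) (gen_mem J c') rfl _ _ _ _

lemma r1_val (J : HI σ R) (c c' a : σ) :
    (r1 J c c' (frac J c' a)).val = Localization.mk (gen J a * gen J c ^ 1)
      (⟨(gen J c * gen J c') ^ 1, ⟨1, rfl⟩⟩ : Submonoid.powers (gen J c * gen J c')) :=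
  HomogeneousLocalization.val_awayMap_mk (qgrad J.toIdeal) (gen_mem J c) (mul_comm _ _) _ _ _ _

lemma r_frac (J : HI σ R) (c c' a : σ) :
    r0 J c c' (frac J c a) = r0 J c c' (frac J c c') * r1 J c c' (frac J c' a) := by
  apply HomogeneousLocalization.val_injective
  rw [HomogeneousLocalization.val_mul, r0_val, r0_val, r1_val, Localization.mk_mul,
    Localization.mk_eq_mk_iff, Localization.r_iff_exists]
  refine ⟨1, ?_⟩
  simp only [OneMemClass.coe_one, one_mul, Submonoid.coe_mul]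
  ring

lemma r_chart (J : HI σ R) (c c' : σ) :
    Spec.map (CommRingCat.ofHom (r0 J c c')) ≫ V.chart J c =
      Spec.map (CommRingCat.ofHom (r1 J c c')) ≫ V.chart J c' := by
  have h1 := Proj.SpecMap_awayMap_awayι (qgrad J.toIdeal) (gen_mem J c) one_pos (gen_mem J c')
    (rfl : gen J c * gen J c' = gen J c * gen J c')
  have h2 := Proj.SpecMap_awayMap_awayι (qgrad J.toIdeal) (gen_mem J c') one_pos (gen_mem J c)
    (mul_comm (gen J c) (gen J c'))
  exact h1.trans h2.symm

lemma exists_lift (J : HI σ R) (c c' : σ) {E : Type} [CommRing E] (φ : Ch J c →+* E)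
    (hu : IsUnit (φ (frac J c c'))) : ∃ ψ : Ov J c c' →+* E, ψ.comp (r0 J c c') = φ := by
  let : Algebra (Ch J c) (Ov J c c') := (r0 J c c').toAlgebra
  have h : IsLocalization.Away (frac J c c') (Ov J c c') := by
    have h1 := HomogeneousLocalization.Away.isLocalization_mul (gen_mem J c) (gen_mem J c')
      (rfl : gen J c * gen J c' = gen J c * gen J c') one_ne_zero
    rw [isLocalizationElem_eq] at h1
    exact h1
  exact ⟨IsLocalization.Away.lift (frac J c c') hu, IsLocalization.Away.lift_comp _ hu⟩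

lemma ptOf_glue (J : HI σ R) (c c' : σ) {E : Type} [CommRing E] [Algebra R E]
    (φ : Ch J c →ₐ[R] E) (φ' : Ch J c' →ₐ[R] E) (hu : IsUnit (φ (frac J c c')))
    (h : ∀ a, φ (frac J c a) = φ (frac J c c') * φ' (frac J c' a)) :
    ptOf J c φ = ptOf J c' φ' := by
  obtain ⟨ψ, hψ⟩ := exists_lift J c c' (φ : Ch J c →+* E) hu
  have e0 : ∀ z, ψ (r0 J c c' z) = φ z := fun z => DFunLike.congr_fun hψ z
  have hψ' : ψ.comp (r1 J c c') = (φ' : Ch J c' →+* E) := by
    apply ch_ringHom_ext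
    · intro r
      change ψ (r1 J c c' (algebraMap R (Ch J c') r)) = φ' (algebraMap R (Ch J c') r)
      rw [r_const, e0, φ.commutes, φ'.commutes]
    · intro a
      change ψ (r1 J c c' (frac J c' a)) = φ' (frac J c' a)
      apply hu.mul_left_cancel
      rw [← h, ← e0, ← e0, ← map_mul, ← r_frac]
  unfold ptOf
  rw [← hψ, ← hψ', CommRingCat.ofHom_comp, CommRingCat.ofHom_comp, Spec.map_comp, Spec.map_comp,
    Category.assoc, Category.assoc, r_chart]

lemma ptOf_comp (J : HI σ R) (c : σ) {E E' : Type} [CommRing E] [Algebra R E] [CommRing E']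
    [Algebra R E'] (φ : Ch J c →ₐ[R] E) (f : E →ₐ[R] E') :
    ptOf J c (f.comp φ) = Spec.map (CommRingCat.ofHom f.toRingHom) ≫ ptOf J c φ := by
  unfold ptOf
  rw [← Category.assoc, ← Spec.map_comp]
  rfl

end glue

section dom

lemma tlift {F A L : Type} [CommRing F] [CommRing A] [CommRing L] (c : F →+* L) (ψ : A →+* L) :
    ∃ φ : F ⊗[ℤ] A →+* L, ∀ a b, φ (a ⊗ₜ[ℤ] b) = c a * ψ b :=
  ⟨(Algebra.TensorProduct.lift c.toIntAlgHom ψ.toIntAlgHom
    (fun _ _ => Commute.all _ _)).toRingHom, fun _ _ => Algebra.TensorProduct.lift_tmul _ _ _ _ _⟩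

variable (F : Type) [Field F]

lemma dom (h2 : (2 : F) ≠ 0) : IsDomain (F ⊗[ℤ] AL) := by
  have h4 : (4 : F) ≠ 0 := by
    have : (4 : F) = 2 * 2 := by norm_num
    rw [this]; exact mul_ne_zero h2 h2
  have hd := ch_isDomain F h4 0
  let s : Ch (JF F) 0 := frac (JF F) 0 (0 + 1)
  let t : Ch (JF F) 0 := frac (JF F) 0 (0 + 2)
  have hs : s ≠ 0 := by
    obtain ⟨x, hx⟩ := exists_good F
    intro h0
    have h1 : lift (R := F) 0 1 x hx s = 1 := lift_one _ _ _ _
    rw [h0, map_zero] at h1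
    exact zero_ne_one h1
  let L : Type := Localization.Away s
  have hL : IsDomain L :=
    IsLocalization.isDomain_localization (powers_le_nonZeroDivisors_of_noZeroDivisors hs)
  have hr : 1 + algebraMap (Ch (JF F) 0) L s ^ 4 + algebraMap (Ch (JF F) 0) L t ^ 4 = 0 := by
    have h := congrArg (algebraMap (Ch (JF F) 0) L) (frac_rel (R := F) 0)
    rwa [map_add, map_add, map_one, map_pow, map_pow, map_zero] at h
  let ψ : AL →+* L := liftL (liftZ _ _ hr) (by
    rw [liftZ_x]; exact IsLocalization.Away.algebraMap_isUnit s)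
  have hψx : ψ (g0 xx) = algebraMap (Ch (JF F) 0) L s := by
    rw [liftL_g0, liftZ_x]
  have hψy : ψ (g0 yy) = algebraMap (Ch (JF F) 0) L t := by
    rw [liftL_g0, liftZ_y]
  let c : F →+* L := (algebraMap (Ch (JF F) 0) L).comp (algebraMap F (Ch (JF F) 0))
  obtain ⟨φ, hφ⟩ := tlift c ψ
  let ι : AL →+* F ⊗[ℤ] AL := (Algebra.TensorProduct.includeRight : AL →ₐ[ℤ] F ⊗[ℤ] AL).toRingHom
  let χ0 : Ch (JF F) 0 →ₐ[F] F ⊗[ℤ] AL := lift 0 _ _ (rel_map (ι.comp g0))
  have hχs : χ0 s = ι (g0 xx) := lift_one _ _ _ _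
  have hχt : χ0 t = ι (g0 yy) := lift_two _ _ _ _
  have hu : IsUnit ((χ0 : Ch (JF F) 0 →+* F ⊗[ℤ] AL) s) := by
    change IsUnit (χ0 s)
    rw [hχs]
    exact g0_unit.map ι
  let χ : L →+* F ⊗[ℤ] AL := IsLocalization.Away.lift s hu
  have hχ : ∀ z, χ (algebraMap (Ch (JF F) 0) L z) = χ0 z := fun z =>
    IsLocalization.Away.lift_eq s hu z
  have e1 : χ.comp ψ = ι := by
    apply extL
    · change χ (ψ (g0 xx)) = _
      rw [hψx, hχ, hχs]
    · change χ (ψ (g0 yy)) = _
      rw [hψy, hχ, hχt]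
  have e2 : ∀ z, χ (φ z) = z := by
    intro z
    induction z using TensorProduct.induction_on with
    | zero => rw [map_zero, map_zero]
    | add a b ha hb => rw [map_add, map_add, ha, hb]
    | tmul a b =>
      have e3 : φ (a ⊗ₜ[ℤ] b) = c a * ψ b := hφ a b
      have e4 : χ (ψ b) = (1 : F) ⊗ₜ[ℤ] b := DFunLike.congr_fun e1 b
      have e5 : χ (c a) = a ⊗ₜ[ℤ] (1 : AL) := by
        change χ (algebraMap (Ch (JF F) 0) L (algebraMap F (Ch (JF F) 0) a)) = _
        rw [hχ, χ0.commutes]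
        rfl
      rw [e3, map_mul, e4, e5, Algebra.TensorProduct.tmul_mul_tmul, mul_one, one_mul]
  have hinj : Function.Injective φ := fun a b hab => by rw [← e2 a, ← e2 b, hab]
  exact hinj.isDomain φ

end dom

section field

variable {k : Type} [Field k]

lemma no_pt (h : ∀ x y z : k, x ^ 4 + y ^ 4 + z ^ 4 = 0 → x = 0 ∧ y = 0 ∧ z = 0)
    (f : Spec (.of k) ⟶ V (JF k)) : False := by
  obtain ⟨c, hc⟩ := V.exists_mem_D (JF k) (f (IsLocalRing.closedPoint k))
  have hr : Set.range f ⊆ Set.range (V.chart (JF k) c) := by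
    rintro _ ⟨y, rfl⟩
    have : y = IsLocalRing.closedPoint k := Subsingleton.elim _ _
    rw [this]
    exact (V.mem_range_chart _ _ _).2 hc
  obtain ⟨φ, -⟩ := Spec.map_surjective (IsOpenImmersion.lift (V.chart (JF k) c) f hr)
  have h1 := congrArg φ.hom (frac_rel (R := k) c)
  rw [map_add, map_add, map_one, map_pow, map_pow, map_zero] at h1
  exact one_ne_zero (h 1 (φ.hom (frac (JF k) c (c + 1))) (φ.hom (frac (JF k) c (c + 2)))
    (by linear_combination h1)).1

lemma eta_ind (h2 : (2 : k) ≠ 0)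
    (hk : ∀ x y z : k, x ^ 4 + y ^ 4 + z ^ 4 = 0 → x = 0 ∧ y = 0 ∧ z = 0) (s t : k)
    (h : s • eta (k := k) 0 + t • eta (k := k) 1 = 0) : s = 0 ∧ t = 0 := by
  have h4 : (4 : k) ≠ 0 := by
    have : (4 : k) = 2 * 2 := by norm_num
    rw [this]; exact mul_ne_zero h2 h2
  obtain ⟨x0, hx0⟩ :=
    IsAlgClosed.exists_pow_nat_eq (-1 : AlgebraicClosure k) (n := 4) (by norm_num)
  have hrel : (1 : DualNumber (AlgebraicClosure k)) + (TrivSqZeroExt.inl x0) ^ 4 +
      DualNumber.eps ^ 4 = 0 := by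
    have e1 : (DualNumber.eps : DualNumber (AlgebraicClosure k)) ^ 4 = 0 := by
      have := DualNumber.eps_mul_eps (R := AlgebraicClosure k)
      calc (DualNumber.eps : DualNumber (AlgebraicClosure k)) ^ 4 =
        (DualNumber.eps * DualNumber.eps) * DualNumber.eps ^ 2 := by ring
        _ = 0 := by rw [this, zero_mul]
    rw [e1, TrivSqZeroExt.inl_pow, hx0, add_zero, TrivSqZeroExt.inl_neg, TrivSqZeroExt.inl_one,
      add_neg_cancel]
  let φ : Ch (JF k) 0 →ₐ[k] DualNumber (AlgebraicClosure k) := lift 0 _ _ hrel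
  let x := cpt (JF k) 0 φ
  have hx : x ∈ V.D (JF k) 0 := cpt_mem (JF k) 0 φ
  have h1 := congrFun h x
  rw [Pi.add_apply, Pi.smul_apply, Pi.smul_apply, Pi.zero_apply, eta_eq h4 0 0 x hx,
    eta_eq h4 1 0 x hx, frac_self, map_one] at h1
  have h3 : (algebraMap k (LocRing (XV (JF k)) x) s +
      algebraMap k (LocRing (XV (JF k)) x) t * gm (JF k) 0 x hx (frac (JF k) 0 (0 + 1))) •
      theta 0 x hx = 0 := by
    rw [← h1, add_smul, mul_smul, algebraMap_smul, algebraMap_smul, one_smul]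
    rfl
  have h6 := tangent (evA (JF k) 0 φ) _ _ _ h3
  rw [map_add, map_mul, AlgHom.commutes, AlgHom.commutes, evA_gm, evA_gm, lift_one, lift_two]
    at h6
  simp only [TrivSqZeroExt.fst_add, TrivSqZeroExt.fst_mul, TrivSqZeroExt.fst_inl,
    TrivSqZeroExt.snd_inl, DualNumber.snd_eps, DualNumber.fst_eps, mul_one, mul_zero,
    sub_zero] at h6
  have hx00 : x0 ≠ 0 := by
    rintro rfl
    norm_num at hx0
  have h7 : algebraMap k (AlgebraicClosure k) s + algebraMap k (AlgebraicClosure k) t * x0 = 0 :=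
    (mul_eq_zero.1 h6).resolve_right hx00
  have ht : t = 0 := by
    by_contra ht
    have ht' : algebraMap k (AlgebraicClosure k) t ≠ 0 := (map_ne_zero _).2 ht
    have e : x0 = algebraMap k (AlgebraicClosure k) (-s / t) := by
      rw [map_div₀, map_neg, eq_div_iff ht']
      linear_combination h7
    rw [e, ← map_pow] at hx0
    have e2 : (-s / t) ^ 4 = -1 := by
      apply (algebraMap k (AlgebraicClosure k)).injective
      rw [hx0, map_neg, map_one]
    exact one_ne_zero (hk (-s / t) 1 0 (by rw [e2]; norm_num)).2.1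
  refine ⟨?_, ht⟩
  rw [ht, map_zero, zero_mul, add_zero] at h7
  exact (map_eq_zero _).1 h7

lemma genus_two (h2 : (2 : k) ≠ 0)
    (hk : ∀ x y z : k, x ^ 4 + y ^ 4 + z ^ 4 = 0 → x = 0 ∧ y = 0 ∧ z = 0) :
    2 ≤ genus (XV (JF k)) := by
  have h4 : (4 : k) ≠ 0 := by
    have : (4 : k) = 2 * 2 := by norm_num
    rw [this]; exact mul_ne_zero h2 h2
  let W := Submodule.span k {ω | IsGlobalForm (XV (JF k)) ω}
  let w0 : W := ⟨eta 0, Submodule.subset_span (eta_global h4 0)⟩
  let w1 : W := ⟨eta 1, Submodule.subset_span (eta_global h4 1)⟩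
  have hli : LinearIndependent k ![w0, w1] := by
    rw [LinearIndependent.pair_iff]
    intro s t h
    exact eta_ind h2 hk s t (congrArg Subtype.val h)
  have h3 := hli.cardinal_le_rank
  have h5 : (2 : Cardinal) ≤ Module.rank k W := by simpa using h3
  exact h5

lemma rel_map' {E : Type} [CommRing E] (α : AZ →+* E) : 1 + α yy ^ 4 + α xx ^ 4 = 0 := by
  linear_combination rel_map α

variable (k) in
/-- points from the first chart -/
noncomputable def Q0 (T : Type) [CommRing T] [Algebra k T] (α : AZ →+* T) :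
    SpO k T ⟶ XV (JF k) :=
  Over.homMk (ptOf (JF k) 0 (lift 0 _ _ (rel_map α))) (ptOf_str _ _ _)

variable (k) in
/-- points from the second chart -/
noncomputable def Q1 (T : Type) [CommRing T] [Algebra k T] (α : AZ →+* T) :
    SpO k T ⟶ XV (JF k) :=
  Over.homMk (ptOf (JF k) 1 (lift 1 _ _ (rel_map' α))) (ptOf_str _ _ _)

lemma Q0_nat (T T' : Type) [CommRing T] [Algebra k T] [CommRing T'] [Algebra k T']
    (φ : T →ₐ[k] T') (α : AZ →+* T) : Q0 k T' (φ.toRingHom.comp α) = SpM φ ≫ Q0 k T α := by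
  ext1
  change ptOf (JF k) 0 _ = Spec.map (CommRingCat.ofHom φ.toRingHom) ≫ ptOf (JF k) 0 _
  rw [← ptOf_comp]
  congr 1
  apply hom_ext
  · rw [AlgHom.comp_apply, lift_one, lift_one]; rfl
  · rw [AlgHom.comp_apply, lift_two, lift_two]; rfl

lemma Q1_nat (T T' : Type) [CommRing T] [Algebra k T] [CommRing T'] [Algebra k T']
    (φ : T →ₐ[k] T') (α : AZ →+* T) : Q1 k T' (φ.toRingHom.comp α) = SpM φ ≫ Q1 k T α := by
  ext1
  change ptOf (JF k) 1 _ = Spec.map (CommRingCat.ofHom φ.toRingHom) ≫ ptOf (JF k) 1 _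
  rw [← ptOf_comp]
  congr 1
  apply hom_ext
  · rw [AlgHom.comp_apply, lift_one, lift_one]; rfl
  · rw [AlgHom.comp_apply, lift_two, lift_two]; rfl

lemma Q_glue (T : Type) [CommRing T] [Algebra k T] (α : AL →+* T) :
    Q0 k T (α.comp g0) = Q1 k T (α.comp g1) := by
  ext1
  change ptOf (JF k) 0 _ = ptOf (JF k) 1 _
  have a1 : lift (R := k) 0 _ _ (rel_map (α.comp g0)) (frac (JF k) 0 1) = α (g0 xx) :=
    lift_one 0 _ _ _
  have a2 : lift (R := k) 0 _ _ (rel_map (α.comp g0)) (frac (JF k) 0 2) = α (g0 yy) :=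
    lift_two 0 _ _ _
  have b1 : lift (R := k) 1 _ _ (rel_map' (α.comp g1)) (frac (JF k) 1 2) = α (g1 yy) :=
    lift_one 1 _ _ _
  have b2 : lift (R := k) 1 _ _ (rel_map' (α.comp g1)) (frac (JF k) 1 0) = α (g1 xx) :=
    lift_two 1 _ _ _
  apply ptOf_glue
  · rw [a1]
    exact g0_unit.map α
  · intro a
    rw [a1]
    have ha : a = 0 ∨ a = 1 ∨ a = 2 := by revert a; decide
    rcases ha with rfl | rfl | rfl
    · rw [frac_self, map_one, b2, g1_x, ← map_mul, x_xi, map_one]
    · rw [frac_self, map_one, a1, mul_one]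
    · rw [a2, b1, g1_y, ← map_mul, mul_left_comm, x_xi, mul_one]

end field

theorem curve (κ : Type) [Field κ] [CharP κ 5]
    (h : ∀ x y z : κ, x ^ 4 + y ^ 4 + z ^ 4 = 0 → x = 0 ∧ y = 0 ∧ z = 0) :
    ∃ (X : Sch κ) (A0 A1 A : Type) (_ : CommRing A0) (_ : CommRing A1) (_ : CommRing A)
      (D : Two ℤ A0 A1 A)
      (P0 : ∀ (T : Type) [CommRing T] [Algebra κ T], (A0 →+* T) → (SpO κ T ⟶ X))
      (P1 : ∀ (T : Type) [CommRing T] [Algebra κ T], (A1 →+* T) → (SpO κ T ⟶ X)),
      IsProper X.hom ∧ SmoothOfRelativeDimension 1 X.hom ∧ GeometricallyConnected X.hom ∧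
      2 ≤ genus X ∧ IsEmpty (pt κ ⟶ X) ∧
      (∀ (T T' : Type) [CommRing T] [Algebra κ T] [CommRing T'] [Algebra κ T'] (φ : T →ₐ[κ] T')
        (α : A0 →+* T), P0 T' (φ.toRingHom.comp α) = SpM φ ≫ P0 T α) ∧
      (∀ (T T' : Type) [CommRing T] [Algebra κ T] [CommRing T'] [Algebra κ T'] (φ : T →ₐ[κ] T')
        (α : A1 →+* T), P1 T' (φ.toRingHom.comp α) = SpM φ ≫ P1 T α) ∧
      (∀ (T : Type) [CommRing T] [Algebra κ T] (α : A →+* T),
        P0 T (α.comp D.f0.toRingHom) = P1 T (α.comp D.f1.toRingHom)) ∧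
      (∀ (F : Type) [Field F] [CharP F 5], IsDomain (F ⊗[ℤ] A)) ∧
      ∃ (B : Type) (_ : CommRing B), Module.Finite ℤ B ∧ Nonempty (A →+* B) ∧
        ∀ (K : Type) [Field K] [IsAlgClosed K] [CharP K 5], Nonempty (B →+* K) := by
  have five : ∀ (F : Type) [Field F] [CharP F 5], (2 : F) ≠ 0 := by
    intro F _ _
    apply two_ne_zero5
    exact_mod_cast CharP.cast_eq_zero F 5
  have h2 := five κ
  have h4 : (4 : κ) ≠ 0 := by
    have : (4 : κ) = 2 * 2 := by norm_num
    rw [this]; exact mul_ne_zero h2 h2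
  exact ⟨XV (JF κ), AZ, AZ, AL, inferInstance, inferInstance, inferInstance, two, Q0 κ, Q1 κ,
    isProper_str _, smooth_str (IsUnit.mk0 _ h4), geomConnected κ h2, genus_two h2 h,
    ⟨fun f => no_pt h f.left⟩, Q0_nat, Q1_nat, Q_glue, fun F _ _ => dom F (five F),
    BZ, inferInstance, BZ_finite, BZ_from, fun K _ _ _ => BZ_to K⟩

end Pool.Agent.H549Z.Curve
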