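import Mathlib
import Pool.Agent.Helper255.BN.Top

/-! The planar vector inequality for vectors anywhere in the plane. -/
set_option autoImplicit false
open scoped BigOperators
open Finset

namespace Pool.Agent.H549Z.PlanarFull

open Pool.Agent.Helper255.BN.Top

/-- A rank two trace inequality in coordinates. -/
theorem trace_two {V : Type*} [Fintype V] [DecidableEq V] (lam α β : V → ℝ) (t : V) (a b : ℝ)
    (hab : b ≤ a) (hb : 0 ≤ b) (ht : lam t ≤ a) (hk : ∀ k, k ≠ t → lam k ≤ b) :
    (max 0 (∑ k, lam k * (α k ^ 2 + β k ^ 2))) ^ 2 ≤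
      (a ^ 2 + b ^ 2) * ((∑ k, α k * α k) ^ 2 + 2 * (∑ k, α k * β k) ^ 2 + (∑ k, β k * β k) ^ 2) := by
  set p := ∑ k, α k * α k with hp
  set q := ∑ k, β k * β k with hq
  set r := ∑ k, α k * β k with hr
  set d := α t ^ 2 + β t ^ 2 with hd
  set δ := Real.sqrt ((p - q) ^ 2 + 4 * r ^ 2) with hδ
  have hδ0 : 0 ≤ δ := Real.sqrt_nonneg _
  have hδ2 : δ ^ 2 = (p - q) ^ 2 + 4 * r ^ 2 := Real.sq_sqrt (by positivity)
  have hp0 : 0 ≤ p := Finset.sum_nonneg fun k _ => mul_self_nonneg _
  have hq0 : 0 ≤ q := Finset.sum_nonneg fun k _ => mul_self_nonneg _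
  have hd0 : 0 ≤ d := by positivity
  have hD : ∑ k, (α k ^ 2 + β k ^ 2) = p + q := by
    rw [hp, hq, ← Finset.sum_add_distrib]
    exact Finset.sum_congr rfl fun k _ => by ring
  have h1 : ∑ k, lam k * (α k ^ 2 + β k ^ 2) ≤ (a - b) * d + b * (p + q) := by
    have h2 : ∀ k, lam k * (α k ^ 2 + β k ^ 2) ≤
        (if k = t then (a - b) * d else 0) + b * (α k ^ 2 + β k ^ 2) := by
      intro k
      have h3 : 0 ≤ α k ^ 2 + β k ^ 2 := by positivity
      by_cases h : k = t
      · subst h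
        rw [if_pos rfl]
        nlinarith [mul_le_mul_of_nonneg_right ht h3]
      · rw [if_neg h, zero_add]
        exact mul_le_mul_of_nonneg_right (hk k h) h3
    refine (Finset.sum_le_sum fun k _ => h2 k).trans (le_of_eq ?_)
    rw [Finset.sum_add_distrib, ← Finset.mul_sum, hD]
    simp
  have h4 : d ^ 2 ≤ p * α t ^ 2 + 2 * r * (α t * β t) + q * β t ^ 2 := by
    have h5 : ∑ k, (α t * α k + β t * β k) ^ 2 =
        p * α t ^ 2 + 2 * r * (α t * β t) + q * β t ^ 2 := by
      rw [hp, hq, hr, Finset.mul_sum, Finset.sum_mul, Finset.sum_mul, Finset.sum_mul,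
        ← Finset.sum_add_distrib, ← Finset.sum_add_distrib]
      exact Finset.sum_congr rfl fun k _ => by ring
    rw [← h5]
    have h6 := Finset.single_le_sum (f := fun k => (α t * α k + β t * β k) ^ 2)
      (fun k _ => sq_nonneg _) (Finset.mem_univ t)
    refine le_trans (le_of_eq ?_) h6
    rw [hd]; ring
  have h7 : (p - q) * (α t ^ 2 - β t ^ 2) + 4 * r * (α t * β t) ≤ δ * d := by
    refine le_trans (le_abs_self _) (abs_le_of_sq_le_sq' ?_ (mul_nonneg hδ0 hd0) |> fun h => abs_le.2 h)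
    rw [mul_pow, hδ2, hd]
    nlinarith [sq_nonneg ((p - q) * (2 * α t * β t) - 2 * r * (α t ^ 2 - β t ^ 2))]
  have h8 : 2 * d ≤ p + q + δ := by
    rcases hd0.eq_or_lt with h | h
    · rw [← h]; linarith
    · have : d * (2 * d) ≤ d * (p + q + δ) := by
        have e : p * α t ^ 2 + 2 * r * (α t * β t) + q * β t ^ 2 =
            ((p + q) * d + ((p - q) * (α t ^ 2 - β t ^ 2) + 4 * r * (α t * β t))) / 2 := by
          rw [hd]; ring
        nlinarith
      exact le_of_mul_le_mul_left this h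
  have h9 : ∑ k, lam k * (α k ^ 2 + β k ^ 2) ≤ (a + b) / 2 * (p + q) + (a - b) / 2 * δ := by
    have : (a - b) * (2 * d) ≤ (a - b) * (p + q + δ) :=
      mul_le_mul_of_nonneg_left h8 (by linarith)
    nlinarith
  have h10 : 0 ≤ (a + b) / 2 * (p + q) + (a - b) / 2 * δ := by
    have : 0 ≤ a - b := by linarith
    have : 0 ≤ a + b := by linarith
    positivity
  have h11 : max 0 (∑ k, lam k * (α k ^ 2 + β k ^ 2)) ≤
      (a + b) / 2 * (p + q) + (a - b) / 2 * δ := max_le h10 h9
  refine (pow_le_pow_left₀ (le_max_left _ _) h11 2).trans ?_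
  have e : p ^ 2 + 2 * r ^ 2 + q ^ 2 = ((p + q) ^ 2 + δ ^ 2) / 2 := by rw [hδ2]; ring
  rw [e]
  nlinarith [sq_nonneg ((a + b) / 2 * δ - (a - b) / 2 * (p + q))]

theorem quad_form {V : Type*} [Fintype V] [DecidableEq V] {A : Matrix V V ℝ} (hA : A.IsHermitian)
    (f : V → ℝ) :
    ∑ i, ∑ j, A i j * (f i * f j) = ∑ k, hA.eigenvalues k * co hA k f ^ 2 := by
  have h := co_parseval hA f (fun v => ∑ j, A v j * f j)
  simp only [co_mulVec] at h
  rw [show (∑ k, hA.eigenvalues k * co hA k f ^ 2) =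
    ∑ k, co hA k f * (hA.eigenvalues k * co hA k f) from
      Finset.sum_congr rfl fun k _ => by ring, h]
  refine Finset.sum_congr rfl fun i _ => ?_
  rw [Finset.mul_sum]
  exact Finset.sum_congr rfl fun j _ => by ring

theorem planar_full {V : Type*} [Fintype V] (G : SimpleGraph V) [DecidableRel G.Adj] (r : ℕ)
    (hr : 1 ≤ r) (hG : G.CliqueFree (r + 1)) (x y : V → ℝ)
    (hxy : ∀ i j, G.Adj i j → 0 ≤ x i * x j + y i * y j) :
    (∑ i, ∑ j, if G.Adj i j then (x i * x j + y i * y j) ^ 2 else 0)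
      ≤ (1 - 1 / (r : ℝ)) * ∑ i, ∑ j, (x i * x j + y i * y j) ^ 2 := by
  classical
  set A : Matrix V V ℝ := fun i j => if G.Adj i j then x i * x j + y i * y j else 0 with hAdef
  have hAij : ∀ i j, A i j = if G.Adj i j then x i * x j + y i * y j else 0 := fun _ _ => rfl
  have hA : A.IsHermitian := by
    ext i j
    simp only [Matrix.conjTranspose_apply, star_trivial, hAij, G.adj_comm j i]
    split_ifs
    · ring
    · rfl
  have h0 : ∀ i j, 0 ≤ A i j := by
    intro i j
    rw [hAij]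
    split_ifs with h
    · exact hxy i j h
    · exact le_rfl
  have hsupp : ∀ i j, ¬ G.Adj i j → A i j = 0 := fun i j h => by rw [hAij, if_neg h]
  set S := ∑ i, ∑ j, if G.Adj i j then (x i * x j + y i * y j) ^ 2 else 0 with hS
  set T := ∑ i, ∑ j, (x i * x j + y i * y j) ^ 2 with hT
  set c : ℝ := 1 - 1 / (r : ℝ) with hc
  have hc0 : 0 ≤ c := by
    have : (1 : ℝ) ≤ r := by exact_mod_cast hr
    rw [hc, sub_nonneg, div_le_one (by linarith)]
    exact this
  have hT0 : 0 ≤ T := Finset.sum_nonneg fun i _ => Finset.sum_nonneg fun j _ => sq_nonneg _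
  have hSA : ∑ i, ∑ j, A i j ^ 2 = S := by
    refine Finset.sum_congr rfl fun i _ => Finset.sum_congr rfl fun j _ => ?_
    rw [hAij]
    split_ifs
    · rfl
    · simp
  have hS2 : S = ∑ k, hA.eigenvalues k * (co hA k x ^ 2 + co hA k y ^ 2) := by
    have e : S = (∑ i, ∑ j, A i j * (x i * x j)) + ∑ i, ∑ j, A i j * (y i * y j) := by
      rw [← Finset.sum_add_distrib]
      refine Finset.sum_congr rfl fun i _ => ?_
      rw [← Finset.sum_add_distrib]
      refine Finset.sum_congr rfl fun j _ => ?_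
      rw [hAij]
      split_ifs
      · ring
      · simp
    rw [e, quad_form hA, quad_form hA, ← Finset.sum_add_distrib]
    exact Finset.sum_congr rfl fun k _ => by ring
  have hT2 : T = (∑ k, co hA k x * co hA k x) ^ 2 + 2 * (∑ k, co hA k x * co hA k y) ^ 2
      + (∑ k, co hA k y * co hA k y) ^ 2 := by
    rw [co_parseval, co_parseval, co_parseval, sq, sq, sq, Finset.sum_mul_sum, Finset.sum_mul_sum,
      Finset.sum_mul_sum, Finset.mul_sum, ← Finset.sum_add_distrib, ← Finset.sum_add_distrib]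
    refine Finset.sum_congr rfl fun i _ => ?_
    rw [Finset.mul_sum, ← Finset.sum_add_distrib, ← Finset.sum_add_distrib]
    exact Finset.sum_congr rfl fun j _ => by ring
  by_contra hcon
  have hlt : c * T < S := not_le.1 hcon
  have hSpos : 0 < S := lt_of_le_of_lt (mul_nonneg hc0 hT0) hlt
  have hne : Nonempty V := by
    by_contra h
    rw [not_nonempty_iff] at h
    simp [hS] at hSpos
  obtain ⟨t, ht⟩ := Finite.exists_max hA.eigenvalues
  have htpos : 0 < hA.eigenvalues t := by
    by_contra h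
    have h1 : S ≤ 0 := by
      rw [hS2]
      exact Finset.sum_nonpos fun k _ =>
        mul_nonpos_of_nonpos_of_nonneg ((ht k).trans (not_lt.1 h)) (by positivity)
    linarith
  have key : ∃ b : ℝ, b ≤ hA.eigenvalues t ∧ 0 ≤ b ∧ (∀ k, k ≠ t → hA.eigenvalues k ≤ b) ∧
      hA.eigenvalues t ^ 2 + b ^ 2 ≤ c * S := by
    by_cases h : ∃ k, k ≠ t ∧ 0 < hA.eigenvalues k
    · obtain ⟨k, hk, hk0⟩ := h
      obtain ⟨s, hs, hs2⟩ := Finset.exists_max_image (Finset.univ.filter fun k => k ≠ t)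
        hA.eigenvalues ⟨k, by simpa using hk⟩
      have hst : s ≠ t := by simpa using hs
      have hs0 : 0 < hA.eigenvalues s := lt_of_lt_of_le hk0 (hs2 k (by simpa using hk))
      refine ⟨hA.eigenvalues s, ht s, hs0.le, fun k hk => hs2 k (by simpa using hk), ?_⟩
      rw [← hSA]
      exact weighted_two G r hr hG hA h0 hsupp t s hst.symm htpos hs0
    · refine ⟨0, htpos.le, le_rfl, fun k hk => ?_, ?_⟩
      · by_contra h1
        exact h ⟨k, hk, not_le.1 h1⟩
      · rw [← hSA]
        have h3 := weighted_single G r hr hG hA h0 hsupp t htpos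
        rw [← hc] at h3
        simpa using h3
  obtain ⟨b, hb1, hb2, hb3, hb4⟩ := key
  have h1 := trace_two hA.eigenvalues (fun k => co hA k x) (fun k => co hA k y) t _ b hb1 hb2
    le_rfl hb3
  rw [← hS2, ← hT2, max_eq_right hSpos.le] at h1
  have h2 : S ^ 2 ≤ c * S * T := h1.trans (mul_le_mul_of_nonneg_right hb4 hT0)
  nlinarith

end Pool.Agent.H549Z.PlanarFull
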